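import Pool.Agent.W434.BW.StmB

/-! Project BW: the system of a consistent instance satisfies the axioms. -/

set_option autoImplicit false

namespace Pool.Agent.W828.BW

open Pool.Agent.W434.BW

variable {V K A Ω : Type} {ι : K → Type} {ar : Ω → ℕ}

theorem rel_inl (M : MI V K A ι) (a : Alg ar A) (k : K) (i j : ι k)
    (h : Sub (piA a (ι k)) (M.R k)) : Rel a a (M.sys.E (.inl ⟨k, i, j⟩)) := by
  intro ω x y hxy
  have hxy' : ∀ m, ∃ r ∈ M.R k, r i = x m ∧ r j = y m := hxy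
  choose r hr h1 h2 using hxy'
  refine ⟨piA a (ι k) ω r, h ω r hr, ?_, ?_⟩
  · show a ω (fun m => r m i) = a ω x
    congr 1
    funext m
    exact h1 m
  · show a ω (fun m => r m j) = a ω y
    congr 1
    funext m
    exact h2 m

theorem rel_inr (M : MI V K A ι) (a : Alg ar A) (v : V) (h : Sub a (M.P v)) :
    Rel a a (M.sys.E (.inr v)) := by
  intro ω x y hxy
  have hxy' : ∀ m, x m = y m ∧ x m ∈ M.P v := hxy
  refine ⟨?_, h ω x fun m => (hxy' m).2⟩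
  congr 1
  funext m
  exact (hxy' m).1

theorem sysok : S_sysok := by
  intro Ω1 Ω2 ar1 ar2 V K A ι M u1 u2 a1 a2 hT hM
  have hr1 : ∀ s, Rel a1 a1 (M.sys.E s) := by
    rintro (⟨k, i, j⟩ | v)
    · by_cases hk : M.fl k
      · exact rel_inl M a1 k i j (hM.sub1 k hk)
      · exact (hT.inv _).2 (rel_inl M a2 k i j (hM.sub2 k hk))
    · exact rel_inr M a1 v (hM.subP v)
  have hr2 : ∀ s, Rel a2 a2 (M.sys.E s) := fun s => (hT.inv _).1 (hr1 s)
  refine ⟨⟨hM.ne, ?_, ?_, ?_, ?_, ?_, fun _ => rfl, fun _ => rfl, fun _ _ _ => Iff.rfl⟩,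
    hr1, hr2, ?_⟩
  · rintro (⟨k, i, j⟩ | v) a b h
    · obtain ⟨r, hr, rfl, rfl⟩ := h
      exact ⟨hM.dom k r hr i, hM.dom k r hr j⟩
    · obtain ⟨rfl, h⟩ := h
      exact ⟨h, h⟩
  · rintro (⟨k, i, j⟩ | v) a h
    · obtain ⟨r, hr, h1⟩ := hM.ext k i a h
      exact ⟨r j, r, hr, h1, rfl⟩
    · exact ⟨a, rfl, h⟩
  · rintro (⟨k, i, j⟩ | v) <;> rfl
  · rintro (⟨k, i, j⟩ | v) <;> rfl
  · rintro (⟨k, i, j⟩ | v) a b
    · constructor
      · rintro ⟨r, hr, h1, h2⟩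
        exact ⟨r, hr, h2, h1⟩
      · rintro ⟨r, hr, h1, h2⟩
        exact ⟨r, hr, h2, h1⟩
    · constructor
      · rintro ⟨rfl, h⟩
        exact ⟨rfl, h⟩
      · rintro ⟨rfl, h⟩
        exact ⟨rfl, h⟩
  · intro v ω x hx
    exact (hr2 (.inr v) ω x x fun i => ⟨rfl, hx i⟩).2

end Pool.Agent.W828.BW
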